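import Pool.Agent.E8helper11.GS.Stm2
import Pool.Agent.E8helper94.GS.GROW

/-!
# Project GS, piece GROWd
-/

set_option autoImplicit false

open Filter Topology
open scoped Classical

namespace Pool.Agent.E8helper54.GS

open Pool.Agent.E8helper11.GS Pool.Agent.E8helper94.GS

/-- the block sizes -/
noncomputable def m1 (δ : ℝ) (k : ℕ) : ℕ := ⌊(4 : ℝ) ^ (δ * k)⌋₊

theorem m1_le (δ : ℝ) (k : ℕ) : (m1 δ k : ℝ) ≤ (4 : ℝ) ^ (δ * k) :=
  Nat.floor_le (by positivity)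

theorem sq_eq (δ : ℝ) (k : ℕ) :
    (4 : ℝ) ^ (δ * k) = (4 : ℝ) ^ (δ / 2 * k) * (4 : ℝ) ^ (δ / 2 * k) := by
  rw [← Real.rpow_add (by norm_num)]
  congr 1
  ring

theorem t_GROWd : S_GROWd := by
  rintro ⟨k1, hk1⟩ δ hδ hδ1
  have hA : ∀ᶠ k in atTop, 2 * m1 δ k ≤ (Cb k).card := by
    filter_upwards [ev_pow 2 2 (by norm_num),
      eventually_ge_atTop k1, eventually_ge_atTop 5] with k h2 h3 h6
    have h1 : (m1 δ k : ℝ) ≤ (4 : ℝ) ^ ((1 / 2 : ℝ) * k) := by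
      refine (m1_le δ k).trans (Real.rpow_le_rpow_of_exponent_le (by norm_num) ?_)
      have : (0 : ℝ) ≤ k := Nat.cast_nonneg k
      nlinarith
    have h4 := hk1 k h3
    have h5 : (4 : ℝ) ^ ((1 / 2 : ℝ) * k) = 2 ^ k := by
      rw [Real.rpow_mul (by norm_num), Real.rpow_natCast]
      congr 1
      rw [show (4 : ℝ) = 2 ^ (2 : ℝ) by norm_num, ← Real.rpow_mul (by norm_num)]
      norm_num
    rw [h5] at h1
    have h7 : (5 : ℝ) ≤ k := by exact_mod_cast h6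
    have h8 : (4 : ℝ) ^ k = 2 ^ k * 2 ^ k := by
      rw [← mul_pow]
      norm_num
    have h9 : (0 : ℝ) < 2 ^ k := by positivity
    have h10 : 4 * ((k : ℝ) + 1) ≤ 2 ^ k := by nlinarith
    have h11 : 2 * (2 : ℝ) ^ k ≤ ((Cb k).card : ℝ) := by
      by_contra hc
      push Not at hc
      have h12 : 2 * ((k : ℝ) + 1) * ((Cb k).card : ℝ) < 2 * ((k : ℝ) + 1) * (2 * 2 ^ k) :=
        mul_lt_mul_of_pos_left hc (by positivity)
      nlinarith
    have h12 : ((2 * m1 δ k : ℕ) : ℝ) ≤ ((Cb k).card : ℝ) := by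
      push_cast
      linarith
    exact_mod_cast h12
  obtain ⟨k2, hk2⟩ := eventually_atTop.1 hA
  obtain ⟨k3, hk3⟩ := eventually_atTop.1 (ev_quad δ hδ)
  refine ⟨fun k => if k < k2 then 0 else m1 δ k, ⌈4 / δ⌉₊, ?_, ?_, ?_, ?_⟩
  · intro k
    dsimp only
    split_ifs with hk
    · simp
    · exact hk2 k (not_lt.1 hk)
  · unfold Subd
    filter_upwards [eventually_ge_atTop k2] with k h2
    rw [if_neg (not_lt.2 h2)]
    exact m1_le δ k
  · unfold Lo
    filter_upwards [eventually_ge_atTop k2, eventually_ge_atTop k3] with k h2 h3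
    rw [if_neg (not_lt.2 h2)]
    refine Nat.le_floor ?_
    have h4 := hk3 k h3
    have h5 : (0 : ℝ) ≤ (k : ℝ) ^ 4 := by positivity
    rw [sq_eq]
    push_cast
    nlinarith
  · filter_upwards [eventually_ge_atTop (k2 + k3 + 3)] with k h1 n hn
    obtain ⟨l, rfl⟩ : ∃ l, k = l + 1 := ⟨k - 1, by omega⟩
    have h3 : m1 δ l ≤ n := by
      refine le_trans ?_ hn
      unfold Ms
      have h4 := Finset.single_le_sum (f := fun k => if k < k2 then 0 else m1 δ k)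
        (fun i _ => Nat.zero_le _) (Finset.mem_range.2 (Nat.lt_succ_self l))
      have h5 : ¬ l < k2 := by omega
      simp only [if_neg h5] at h4
      exact h4
    have h4 := hk3 l (by omega)
    have hl : (2 : ℝ) ≤ l := by
      have : 2 ≤ l := by omega
      exact_mod_cast this
    have h5 : (1 : ℝ) ≤ (l : ℝ) ^ 4 := one_le_pow₀ (by linarith)
    have h6 : (4 : ℝ) ^ (δ * l) < (m1 δ l : ℝ) + 1 := Nat.lt_floor_add_one _
    have h7 : (4 : ℝ) ^ (δ / 2 * l) ≤ (n : ℝ) := by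
      have h8 : (m1 δ l : ℝ) ≤ n := by exact_mod_cast h3
      rw [sq_eq] at h6
      nlinarith
    have h8 : 4 / δ ≤ (⌈4 / δ⌉₊ : ℝ) := Nat.le_ceil _
    have h9 : 4 ≤ (⌈4 / δ⌉₊ : ℝ) * δ := by rwa [div_le_iff₀ hδ] at h8
    calc (4 : ℝ) ^ (l + 1 + 1) = (4 : ℝ) ^ ((l : ℝ) + 2) := by
          rw [← Real.rpow_natCast]
          congr 1
          push_cast
          ring
      _ ≤ (4 : ℝ) ^ (δ / 2 * l * (⌈4 / δ⌉₊ : ℝ)) := by
          refine Real.rpow_le_rpow_of_exponent_le (by norm_num) ?_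
          nlinarith
      _ = ((4 : ℝ) ^ (δ / 2 * l)) ^ ⌈4 / δ⌉₊ := by
          rw [Real.rpow_mul (by norm_num) (δ / 2 * l), Real.rpow_natCast]
      _ ≤ (n : ℝ) ^ ⌈4 / δ⌉₊ := pow_le_pow_left₀ (by positivity) h7 _

end Pool.Agent.E8helper54.GS
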